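import Pool.Agent.MP_a3a891_gt.H97.Ladder
import Pool.Agent.MP_a3a891_gt.H72.Glue

open Set Topology

namespace Pool.Agent.Results.MP_a3a891_gt.PeanoWhyburn

/-- Local separating points as in the problem file: `p` has an open neighbourhood `V` such that
`p` separates the component of `V` containing `p`. -/
def locSep (M : Type) [TopologicalSpace M] : Set M :=
  {p | ∃ V : Set M, IsOpen V ∧ p ∈ V ∧ ¬ IsPreconnected (connectedComponentIn V p \ {p})}

/-- `N` minus `p` is the union of two separated sets, each meeting the component of `N`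
containing `p`. -/
def Splits {M : Type} [TopologicalSpace M] (N : Set M) (p : M) : Prop :=
  ∃ A B : Set M, N \ {p} = A ∪ B ∧ Disjoint (closure A) B ∧ Disjoint A (closure B) ∧
    (A ∩ connectedComponentIn N p).Nonempty ∧ (B ∩ connectedComponentIn N p).Nonempty

/-- Local separating points in the sense of Whyburn, with open neighbourhoods. -/
def locSepW (M : Type) [TopologicalSpace M] : Set M :=
  {p | ∃ V : Set M, IsOpen V ∧ p ∈ V ∧ Splits V p}

/-- Local separating points in the sense of Whyburn, with closures of open neighbourhoods. -/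
def locSepWc (M : Type) [TopologicalSpace M] : Set M :=
  {p | ∃ V : Set M, IsOpen V ∧ p ∈ V ∧ Splits (closure V) p}

/-- `L` is not a union of countably many pairwise disjoint closed proper subsets. -/
def NotUnion {M : Type} [TopologicalSpace M] (L : Set M) : Prop :=
  ¬ ∃ (I : Type) (_ : Countable I) (F : I → Set M),
    Pairwise (fun i j => Disjoint (F i) (F j)) ∧ (∀ i, IsClosed (F i)) ∧ (∀ i, F i ≠ univ) ∧
      L = ⋃ i, F i

/-- `L` is not even contained in such a union. -/
def NotCovered {M : Type} [TopologicalSpace M] (L : Set M) : Prop :=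
  ¬ ∃ (I : Type) (_ : Countable I) (F : I → Set M),
    Pairwise (fun i j => Disjoint (F i) (F j)) ∧ (∀ i, IsClosed (F i)) ∧ (∀ i, F i ≠ univ) ∧
      L ⊆ ⋃ i, F i

open Pool.Agent.MP_a3a891_gt

theorem image_cc {C V : Set (ℝ × ℝ)} (p : C) (hp : (p : ℝ × ℝ) ∈ V) :
    Subtype.val '' connectedComponentIn (Subtype.val ⁻¹' V : Set C) p =
      connectedComponentIn (C ∩ V) (p : ℝ × ℝ) := by
  have e : Subtype.val '' connectedComponentIn (Subtype.val ⁻¹' V : Set C) p =
      connectedComponentIn (C ∩ V) (p : ℝ × ℝ) := by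
    apply Subset.antisymm
    · have := continuous_subtype_val.continuousOn.image_connectedComponentIn_subset
        (s := (Subtype.val ⁻¹' V : Set C)) (a := p) hp
      rwa [Subtype.image_preimage_coe] at this
    · intro q hq
      have hs := connectedComponentIn_subset (C ∩ V) (p : ℝ × ℝ)
      have hpre : IsPreconnected
          (Subtype.val ⁻¹' connectedComponentIn (C ∩ V) (p : ℝ × ℝ) : Set C) := by
        rw [← IsInducing.subtypeVal.isPreconnected_image, Subtype.image_preimage_coe,
          inter_eq_right.2 (hs.trans inter_subset_left)]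
        exact isPreconnected_connectedComponentIn
      exact ⟨⟨q, (hs hq).1⟩, hpre.subset_connectedComponentIn (F := Subtype.val ⁻¹' V)
        (x := p) (mem_connectedComponentIn (show (p : ℝ × ℝ) ∈ C ∩ V from ⟨p.2, hp⟩))
        (fun u hu => (hs hu).2) hq, rfl⟩
  exact e

theorem locSep_of_ls {C : Set (ℝ × ℝ)} (p : C) (h : H97.LS C (p : ℝ × ℝ)) : p ∈ locSep C := by
  obtain ⟨V, hV, hp, h⟩ := h
  refine ⟨Subtype.val ⁻¹' V, hV.preimage continuous_subtype_val, hp, fun hc => h ?_⟩
  rw [← image_cc p hp, ← image_singleton, ← image_sdiff Subtype.val_injective]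
  exact hc.image _ continuous_subtype_val.continuousOn

theorem locSepW_iff {C : Set (ℝ × ℝ)} (hC : IsClosed C) (p : C) :
    p ∈ locSepW C ↔ H72.LW C (p : ℝ × ℝ) := by
  constructor
  · rintro ⟨U, hU, hp, A, B, hAB, h1, h2, hA, hB⟩
    obtain ⟨V, hV, rfl⟩ := isOpen_induced_iff.1 hU
    have hcl := hC.isClosedEmbedding_subtypeVal.closure_image_eq
    refine ⟨V, hV, hp, Subtype.val '' A, Subtype.val '' B, ?_, ?_, ?_, ?_, ?_⟩
    · rw [← image_union, ← hAB, image_sdiff Subtype.val_injective, image_singleton,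
        Subtype.image_preimage_coe]
    · rw [hcl]
      exact (disjoint_image_iff Subtype.val_injective).2 h1
    · rw [hcl]
      exact (disjoint_image_iff Subtype.val_injective).2 h2
    · rw [← image_cc (V := V) p hp, ← image_inter Subtype.val_injective]
      exact hA.image _
    · rw [← image_cc (V := V) p hp, ← image_inter Subtype.val_injective]
      exact hB.image _
  · rintro ⟨V, hV, hp, A, B, hAB, h1, h2, hA, hB⟩
    have hcl : ∀ T : Set (ℝ × ℝ), closure (Subtype.val ⁻¹' T : Set C) ⊆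
        Subtype.val ⁻¹' closure T := continuous_subtype_val.closure_preimage_subset
    have hne : ∀ T : Set (ℝ × ℝ), (T ∩ connectedComponentIn (C ∩ V) (p : ℝ × ℝ)).Nonempty →
        ((Subtype.val ⁻¹' T : Set C) ∩
          connectedComponentIn (Subtype.val ⁻¹' V : Set C) p).Nonempty := by
      rintro T ⟨z, hz, hz'⟩
      rw [← image_cc p hp] at hz'
      obtain ⟨q, hq, rfl⟩ := hz'
      exact ⟨q, hz, hq⟩
    refine ⟨Subtype.val ⁻¹' V, hV.preimage continuous_subtype_val, hp, Subtype.val ⁻¹' A,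
      Subtype.val ⁻¹' B, ?_, (h1.preimage _).mono_left (hcl A), (h2.preimage _).mono_right (hcl B),
      hne A hA, hne B hB⟩
    rw [← preimage_union, ← hAB]
    ext q
    simp [Subtype.ext_iff]

theorem splits_small {M : Type} [MetricSpace M] {K V N : Set M} {p : M} (hK : IsCompact K)
    (hV : IsOpen V) (hpK : p ∈ K) (hpV : p ∈ V) (h : Splits (K ∩ V) p) (hN : N ∈ 𝓝 p)
    (hNs : N ⊆ K ∩ V) : Splits N p := by
  obtain ⟨A, B, hAB, h1, h2, hA, hB⟩ := h
  obtain ⟨r, hr, hrN⟩ := Metric.nhds_basis_closedBall.mem_iff.1 hN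
  have key : ∀ A B : Set M, (K ∩ V) \ {p} = A ∪ B → Disjoint (closure A) B →
      Disjoint A (closure B) → (B ∩ connectedComponentIn (K ∩ V) p).Nonempty →
      (B ∩ N ∩ connectedComponentIn N p).Nonempty := by
    intro A B hAB h1 h2 hB
    obtain ⟨R, -, hRc, hpR, hRb, hRB, v, hv, hvp⟩ :=
      H72.side_continuum hK hV hpK hpV hAB h1 h2 hB hr
    exact ⟨v, ⟨(hRB hv).resolve_left hvp, hrN (hRb hv)⟩,
      hRc.subset_connectedComponentIn hpR (hRb.trans hrN) hv⟩
  refine ⟨A ∩ N, B ∩ N, ?_, h1.mono (closure_mono inter_subset_left) inter_subset_left,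
    h2.mono inter_subset_left (closure_mono inter_subset_left),
    key B A (by rwa [union_comm]) h2.symm h1.symm hA, key A B hAB h1 h2 hB⟩
  rw [← union_inter_distrib_right, ← hAB]
  exact Subset.antisymm (fun z hz => ⟨⟨hNs hz.1, hz.2⟩, hz.1⟩) fun z hz => ⟨hz.2, hz.1.2⟩

theorem locSepWc_eq (M : Type) [MetricSpace M] [CompactSpace M] : locSepWc M = locSepW M := by
  ext p
  constructor
  · rintro ⟨V, hV, hp, h⟩
    exact ⟨V, hV, hp, splits_small isClosed_closure.isCompact isOpen_univ (subset_closure hp)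
      (mem_univ p) (by rwa [inter_univ]) (hV.mem_nhds hp)
      (subset_inter subset_closure (subset_univ _))⟩
  · rintro ⟨V, hV, hp, h⟩
    obtain ⟨r, hr, hrV⟩ := Metric.nhds_basis_closedBall.mem_iff.1 (hV.mem_nhds hp)
    exact ⟨Metric.ball p r, Metric.isOpen_ball, Metric.mem_ball_self hr,
      splits_small isCompact_univ hV (mem_univ p) hp (by rwa [univ_inter])
        (Filter.mem_of_superset (Metric.ball_mem_nhds p hr) subset_closure)
        (subset_inter (subset_univ _) (Metric.closure_ball_subset_closedBall.trans hrV))⟩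

theorem result : ∃ X : Set (ℝ × ℝ), IsCompact X ∧ IsConnected X ∧ LocallyConnectedSpace X ∧
    (∀ C : Set (ℝ × ℝ), C ⊆ X → IsCompact C → IsConnected C → C.Nontrivial →
      NotUnion (locSep C) ∧ NotCovered (locSep C) ∧ NotUnion (locSepW C) ∧
        NotUnion (locSepWc C)) ∧
    ∃ A : Set (ℝ × ℝ), A ⊆ X ∧ IsConnected A ∧ ∃ a ∈ A, ∃ b ∈ A, a ≠ b ∧
      ¬ ∃ f : unitInterval → ℝ × ℝ, Continuous f ∧ f 0 = a ∧ f 1 = b ∧ range f ⊆ A := by
  refine ⟨H97.ladder, H97.isCompact_ladder, H97.isConnected_ladder, H97.lc_ladder, ?_,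
    insert (1, 0) H97.comb, H97.comb_sub, H97.comb_conn, (1, 0), mem_insert _ _, (0, 1),
    Or.inr (Or.inl ⟨rfl, one_pos, le_rfl⟩), by simp, ?_⟩
  · intro C hCX hC hCc hnt
    have hx : ∀ z ∈ C, 0 < z.2 → ∃ r > 0, ∀ w ∈ C ∩ Metric.ball z r, w.1 = z.1 ∨ w.2 = z.2 := by
      intro z _ h0
      obtain ⟨r, hr, h⟩ := H97.ladder_cross h0
      exact ⟨r, hr, fun w hw => h w ⟨hCX hw.1, hw.2⟩⟩
    have hpr : ∀ T : Set C, T ≠ univ → ¬ C ⊆ Subtype.val '' T := fun T hne h =>
      hne (eq_univ_of_forall fun p => by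
        obtain ⟨q, hq, e⟩ := h p.2
        exact Subtype.ext e ▸ hq)
    have h1 : NotCovered (locSep C) := by
      rintro ⟨I, hI, F, hd, hcl, hne, hcov⟩
      refine H97.cross_main hC hCc.2 hnt (hCX.trans inter_subset_left) hx
        (F := fun i => Subtype.val '' F i)
        (fun i => hC.isClosed.isClosedEmbedding_subtypeVal.isClosedMap _ (hcl i))
        (fun i j hij => (disjoint_image_iff Subtype.val_injective).2 (hd hij))
        (fun i => Subtype.coe_image_subset _ _) (fun i => hpr _ (hne i)) fun p hp hl => ?_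
      obtain ⟨i, hi⟩ := mem_iUnion.1 (hcov (locSep_of_ls ⟨p, hp⟩ hl))
      exact ⟨i, _, hi, rfl⟩
    have h2 : NotUnion (locSepW C) := by
      rintro ⟨I, hI, F, hd, hcl, hne, he⟩
      refine H72.whyburn_main hC hCc.2 hnt (hCX.trans inter_subset_left) hx
        (F := fun i => Subtype.val '' F i)
        (fun i => hC.isClosed.isClosedEmbedding_subtypeVal.isClosedMap _ (hcl i))
        (fun i j hij => (disjoint_image_iff Subtype.val_injective).2 (hd hij))
        (fun i => Subtype.coe_image_subset _ _) (fun i => hpr _ (hne i)) (fun p hp hl => ?_) ?_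
      · obtain ⟨i, hi⟩ := mem_iUnion.1 (he ▸ (locSepW_iff hC.isClosed ⟨p, hp⟩).2 hl)
        exact ⟨i, _, hi, rfl⟩
      · rintro i _ ⟨p, hp, rfl⟩
        exact (locSepW_iff hC.isClosed p).1 (he ▸ mem_iUnion.2 ⟨i, hp⟩)
    have : CompactSpace C := isCompact_iff_compactSpace.1 hC
    exact ⟨fun ⟨I, hI, F, hd, hcl, hne, he⟩ => h1 ⟨I, hI, F, hd, hcl, hne, he.subset⟩, h1, h2,
      (locSepWc_eq C).symm ▸ h2⟩
  · rintro ⟨f, hf, h0, h1, hr⟩
    exact H97.comb_nopath f hf h0 h1 hr

end Pool.Agent.Results.MP_a3a891_gt.PeanoWhyburn
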