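import Mathlib

open Set Topology Filter Real

namespace Pool.Agent.Results.MP_a3a891_gt.SineCurve

/-- The set of local separating points of a space `M`: points `p` having an open neighbourhood `V`
such that `p` separates the component of `V` containing `p`. -/
def locSep (M : Type) [TopologicalSpace M] : Set M :=
  {p | ∃ V : Set M, IsOpen V ∧ p ∈ V ∧ ¬ IsPreconnected (connectedComponentIn V p \ {p})}

/-- Condition (S) for the space `M`. -/
def CondS (M : Type) [TopologicalSpace M] : Prop :=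
  ¬ ∃ (I : Type) (_ : Countable I) (F : I → Set M),
    Pairwise (fun i j => Disjoint (F i) (F j)) ∧ (∀ i, IsClosed (F i)) ∧ (∀ i, F i ≠ univ) ∧
      locSep M = ⋃ i, F i

/-- The stronger condition: even the cut points of `M` are not covered by countably many pairwise
disjoint closed proper subsets. -/
def CondCut (M : Type) [TopologicalSpace M] : Prop :=
  ¬ ∃ (I : Type) (_ : Countable I) (F : I → Set M),
    Pairwise (fun i j => Disjoint (F i) (F j)) ∧ (∀ i, IsClosed (F i)) ∧ (∀ i, F i ≠ univ) ∧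
      {p : M | ¬ IsPreconnected ({p}ᶜ : Set M)} ⊆ ⋃ i, F i

/-- Sierpinski theorem for locally connected, locally compact connected spaces. -/
theorem sierpinski {Y : Type} [TopologicalSpace Y] [T2Space Y] [LocallyCompactSpace Y]
    [LocallyConnectedSpace Y] [ConnectedSpace Y] {I : Type} [Countable I] (F : I → Set Y)
    (hd : Pairwise (fun i j => Disjoint (F i) (F j))) (hc : ∀ i, IsClosed (F i))
    (hcov : ∀ y, ∃ i, y ∈ F i) : ∃ i, F i = univ := by
  classical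
  set B : Set Y := (⋃ i, interior (F i))ᶜ with hB
  have hBc : IsClosed B := (isOpen_iUnion fun i => isOpen_interior).isClosed_compl
  have key : ∀ z k, z ∈ F k → z ∉ B → z ∈ interior (F k) := by
    intro z k hz hzB
    simp only [hB, mem_compl_iff, not_not, mem_iUnion] at hzB
    obtain ⟨i, hi⟩ := hzB
    by_cases hik : i = k
    · exact hik ▸ hi
    · exact absurd hz (disjoint_left.mp (hd hik) (interior_subset hi))
  by_cases hBe : B = ∅
  · obtain ⟨y⟩ : Nonempty Y := inferInstance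
    obtain ⟨i, hi⟩ := hcov y
    refine ⟨i, IsClopen.eq_univ ⟨hc i, ?_⟩ ⟨y, hi⟩⟩
    rw [← subset_interior_iff_isOpen]
    intro z hz
    exact key z i hz (by simp [hBe])
  · exfalso
    have : Nonempty B := (nonempty_iff_ne_empty.mpr hBe).to_subtype
    have : LocallyCompactSpace B := hBc.locallyCompactSpace
    have hcl : ∀ i, IsClosed ((Subtype.val : B → Y) ⁻¹' F i) := fun i =>
      (hc i).preimage continuous_subtype_val
    have hun : ⋃ i, (Subtype.val : B → Y) ⁻¹' F i = univ := by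
      ext z
      simpa using hcov z
    obtain ⟨j, x, hx⟩ := nonempty_interior_of_iUnion_of_closed hcl hun
    rw [mem_interior_iff_mem_nhds, nhds_induced, mem_comap] at hx
    obtain ⟨W, hW, hWF⟩ := hx
    obtain ⟨U, hUW, hUo, hxU, hUc⟩ :=
      (locallyConnectedSpace_iff_subsets_isOpen_isConnected.mp inferInstance) (x : Y) W hW
    have hxF : (x : Y) ∈ F j := hWF (show x ∈ Subtype.val ⁻¹' W from hUW hxU)
    have hnot : ¬ U ⊆ F j := by
      intro h
      apply x.2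
      exact mem_iUnion.mpr ⟨j, interior_maximal h hUo hxU⟩
    obtain ⟨y, hyU, hyF⟩ := not_subset.mp hnot
    obtain ⟨k, hk⟩ := hcov y
    have hkj : k ≠ j := fun h => hyF (h ▸ hk)
    have hin : ∀ z ∈ U, z ∈ F k → z ∈ interior (F k) := by
      intro z hzU hz
      refine key z k hz fun hzB => ?_
      have : z ∈ F j := hWF (show (⟨z, hzB⟩ : B) ∈ Subtype.val ⁻¹' W from hUW hzU)
      exact disjoint_left.mp (hd hkj) hz this
    have hsub : U ⊆ interior (F k) := by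
      refine hUc.isPreconnected.subset_left_of_subset_union isOpen_interior (hc k).isOpen_compl
        ?_ ?_ ⟨y, hyU, hin y hyU hk⟩
      · exact disjoint_left.mpr fun z hz hz' => hz' (interior_subset hz)
      · intro z hz
        by_cases h : z ∈ F k
        · exact Or.inl (hin z hz h)
        · exact Or.inr h
    exact disjoint_left.mp (hd hkj) (interior_subset (hsub hxU)) hxF

/-- A space with a dense open arc of cut points satisfies the strong condition. -/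
theorem condCut_of_dense {M : Type} [TopologicalSpace M] {a b : ℝ} (hab : a < b)
    (γ : Ioo a b → M) (hγ : Continuous γ) (hd : DenseRange γ)
    (hcut : ∀ t, ¬ IsPreconnected ({γ t}ᶜ : Set M)) : CondCut M := by
  rintro ⟨I, hI, F, hdis, hcl, hne, hsub⟩
  have : ConnectedSpace (Ioo a b) := isConnected_iff_connectedSpace.mp (isConnected_Ioo hab)
  have : LocallyCompactSpace (Ioo a b) := isOpen_Ioo.locallyCompactSpace
  have : LocallyConnectedSpace (Ioo a b) := isOpen_Ioo.locallyConnectedSpace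
  obtain ⟨i, hi⟩ := sierpinski (fun i => γ ⁻¹' F i)
    (fun i j hij => (hdis hij).preimage γ) (fun i => (hcl i).preimage hγ)
    (fun t => by simpa using hsub (hcut t))
  apply hne i
  have h1 : range γ ⊆ F i := by
    rintro _ ⟨t, rfl⟩
    have : t ∈ γ ⁻¹' F i := hi ▸ mem_univ t
    exact this
  have h2 := (hcl i).closure_subset_iff.mpr h1
  rw [hd.closure_range] at h2
  exact univ_subset_iff.mp h2

theorem condS_of_condCut {M : Type} [TopologicalSpace M] [ConnectedSpace M] (h : CondCut M) :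
    CondS M := by
  rintro ⟨I, hI, F, hdis, hcl, hne, heq⟩
  refine h ⟨I, hI, F, hdis, hcl, hne, ?_⟩
  rw [← heq]
  intro p hp
  refine ⟨univ, isOpen_univ, mem_univ p, ?_⟩
  rw [connectedComponentIn_univ, PreconnectedSpace.connectedComponent_eq_univ, ← compl_eq_univ_sdiff]
  exact hp

theorem cut_of_fun {M : Type} [TopologicalSpace M] (φ : M → ℝ) (hφ : Continuous φ) (p u v : M)
    (hu : φ u < φ p) (hv : φ p < φ v) (hp : ∀ q, φ q = φ p → q = p) :
    ¬ IsPreconnected ({p}ᶜ : Set M) := by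
  intro h
  have hu' : u ∈ ({p}ᶜ : Set M) := fun h' => hu.ne (by rw [mem_singleton_iff.mp h'])
  have hv' : v ∈ ({p}ᶜ : Set M) := fun h' => hv.ne' (by rw [mem_singleton_iff.mp h'])
  obtain ⟨q, hq, hq'⟩ := h.intermediate_value hu' hv' hφ.continuousOn ⟨hu.le, hv.le⟩
  exact hq (hp q hq')

/-- The graph part. -/
noncomputable def S : Set (ℝ × ℝ) := (fun x ↦ (x, sin x⁻¹)) '' Ioc 0 1

/-- The limit bar. -/
def Z : Set (ℝ × ℝ) := (fun y ↦ (0, y)) '' Icc (-1) 1

noncomputable def xSeq (y : ℝ) (k : ℕ) := 1 / (arcsin y + (k + 1) * (2 * π))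

lemma xSeq_pos (y : ℝ) (k : ℕ) : 0 < xSeq y k := by
  rw [xSeq, one_div_pos]
  nlinarith [pi_pos, neg_pi_div_two_le_arcsin y]

lemma sin_inv_xSeq {y : ℝ} (hy : y ∈ Icc (-1) 1) (k : ℕ) : sin (xSeq y k)⁻¹ = y := by
  simpa [xSeq, -Nat.cast_add, ← Nat.cast_succ] using sin_arcsin' hy

lemma xSeq_tendsto (y : ℝ) : Tendsto (xSeq y) atTop (𝓝 0) := by
  refine .comp (g := fun k : ℝ ↦ 1 / (arcsin y + (k + 1) * (2 * π))) ?_ tendsto_natCast_atTop_atTop
  simp only [div_eq_mul_inv, show 𝓝 0 = 𝓝 (1 * (0 : ℝ)) by simp]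
  refine (tendsto_inv_atTop_zero.comp <| tendsto_atTop_add_const_left _ _ ?_).const_mul _
  exact (tendsto_atTop_add_const_right _ _ tendsto_id).atTop_mul_const (by positivity)

lemma mem_T_iff {p : ℝ × ℝ} : p ∈ S ∪ Z ↔
    (0 < p.1 ∧ p.1 ≤ 1 ∧ p.2 = sin p.1⁻¹) ∨ (p.1 = 0 ∧ -1 ≤ p.2 ∧ p.2 ≤ 1) := by
  obtain ⟨x, y⟩ := p
  simp only [S, Z, mem_union, mem_image, mem_Ioc, mem_Icc, Prod.mk.injEq]
  constructor
  · rintro (⟨t, ht, rfl, rfl⟩ | ⟨t, ht, rfl, rfl⟩)
    · exact Or.inl ⟨ht.1, ht.2, rfl⟩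
    · exact Or.inr ⟨rfl, ht.1, ht.2⟩
  · rintro (⟨h1, h2, h3⟩ | ⟨h1, h2, h3⟩)
    · exact Or.inl ⟨x, ⟨h1, h2⟩, rfl, h3.symm⟩
    · exact Or.inr ⟨y, ⟨h2, h3⟩, h1.symm, rfl⟩

lemma contAt {x : ℝ} (hx : 0 < x) : ContinuousAt (fun x : ℝ ↦ (x, sin x⁻¹)) x :=
  continuousAt_id.prodMk (continuous_sin.continuousAt.comp <| continuousAt_inv₀ hx.ne')

lemma bar_mem_closure {b y : ℝ} (hb : 0 < b) (hy : y ∈ Icc (-1 : ℝ) 1) :
    ((0 : ℝ), y) ∈ closure ((fun x : ℝ ↦ (x, sin x⁻¹)) '' Ioo 0 b) := by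
  have h1 : Tendsto (fun n => (xSeq y n, y)) atTop (𝓝 ((0 : ℝ), y)) :=
    (xSeq_tendsto y).prodMk_nhds tendsto_const_nhds
  refine mem_closure_of_tendsto h1 ?_
  filter_upwards [(xSeq_tendsto y).eventually (gt_mem_nhds hb)] with n hn
  exact ⟨xSeq y n, ⟨xSeq_pos y n, hn⟩, by simp [sin_inv_xSeq hy n]⟩

lemma isClosed_T : IsClosed (S ∪ Z) := by
  rw [← isSeqClosed_iff_isClosed]
  intro f p hf hp
  have h1 : Tendsto (fun n => (f n).1) atTop (𝓝 p.1) := (continuous_fst.tendsto p).comp hp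
  have h2 : Tendsto (fun n => (f n).2) atTop (𝓝 p.2) := (continuous_snd.tendsto p).comp hp
  have hb : ∀ n, (0 ≤ (f n).1 ∧ (f n).1 ≤ 1) ∧ (-1 ≤ (f n).2 ∧ (f n).2 ≤ 1) := by
    intro n
    rcases mem_T_iff.mp (hf n) with ⟨h1, h2, h3⟩ | ⟨h1, h2, h3⟩
    · exact ⟨⟨h1.le, h2⟩, h3 ▸ ⟨neg_one_le_sin _, sin_le_one _⟩⟩
    · exact ⟨⟨h1.ge, by linarith⟩, h2, h3⟩
  have hx0 : 0 ≤ p.1 := ge_of_tendsto' h1 fun n => (hb n).1.1
  have hx1 : p.1 ≤ 1 := le_of_tendsto' h1 fun n => (hb n).1.2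
  have hy0 : -1 ≤ p.2 := ge_of_tendsto' h2 fun n => (hb n).2.1
  have hy1 : p.2 ≤ 1 := le_of_tendsto' h2 fun n => (hb n).2.2
  rw [mem_T_iff]
  rcases hx0.eq_or_lt with h | h
  · exact Or.inr ⟨h.symm, hy0, hy1⟩
  · refine Or.inl ⟨h, hx1, ?_⟩
    have hc : ContinuousAt (fun x : ℝ ↦ sin x⁻¹) p.1 :=
      continuous_sin.continuousAt.comp <| continuousAt_inv₀ h.ne'
    refine tendsto_nhds_unique_of_eventuallyEq h2 (hc.tendsto.comp h1) ?_
    filter_upwards [h1.eventually (lt_mem_nhds h)] with n hn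
    rcases mem_T_iff.mp (hf n) with ⟨_, _, h3⟩ | ⟨h1, _, _⟩
    · exact h3
    · exact absurd h1 hn.ne'

lemma isCompact_T : IsCompact (S ∪ Z) := by
  refine (isCompact_Icc (a := ((0 : ℝ), (-1 : ℝ))) (b := (1, 1))).of_isClosed_subset isClosed_T ?_
  intro p hp
  rcases mem_T_iff.mp hp with ⟨h1, h2, h3⟩ | ⟨h1, h2, h3⟩
  · exact ⟨⟨h1.le, h3 ▸ neg_one_le_sin _⟩, h2, h3 ▸ sin_le_one _⟩
  · exact ⟨⟨h1.ge, h2⟩, by simp [h1], h3⟩

lemma isConnected_T : IsConnected (S ∪ Z) := by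
  have hS : IsConnected S := (isConnected_Ioc zero_lt_one).image _
    fun x hx => (contAt hx.1).continuousWithinAt
  refine hS.subset_closure subset_union_left (union_subset subset_closure ?_)
  rintro _ ⟨y, hy, rfl⟩
  exact closure_mono (image_mono Ioo_subset_Ioc_self) (bar_mem_closure zero_lt_one hy)

lemma denseRange_of {C : Set (ℝ × ℝ)} {a b : ℝ} (g : ℝ → ℝ × ℝ) (hg : ∀ t ∈ Ioo a b, g t ∈ C)
    (hcl : C ⊆ closure (g '' Ioo a b)) :
    DenseRange (fun t : Ioo a b => (⟨g t, hg t t.2⟩ : C)) := by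
  intro p
  rw [IsInducing.subtypeVal.closure_eq_preimage_closure_image]
  have : (Subtype.val : C → ℝ × ℝ) '' range (fun t : Ioo a b => (⟨g t, hg t t.2⟩ : C))
      = g '' Ioo a b := by
    ext q
    constructor
    · rintro ⟨_, ⟨t, rfl⟩, rfl⟩
      exact ⟨t, t.2, rfl⟩
    · rintro ⟨t, ht, rfl⟩
      exact ⟨_, ⟨⟨t, ht⟩, rfl⟩, rfl⟩
  rw [mem_preimage, this]
  exact hcl p.2

lemma condCut_sub {C : Set (ℝ × ℝ)} (hCT : C ⊆ S ∪ Z) (hC : IsCompact C) (hconn : IsConnected C)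
    (hnt : C.Nontrivial) : CondCut C := by
  obtain ⟨a, b, hab⟩ : ∃ a b, Prod.fst '' C = Icc a b :=
    ⟨_, _, eq_Icc_of_connected_compact (hconn.image _ continuous_fst.continuousOn)
      (hC.image continuous_fst)⟩
  have hmem : ∀ p ∈ C, a ≤ p.1 ∧ p.1 ≤ b := fun p hp => by
    have : p.1 ∈ Icc a b := hab ▸ mem_image_of_mem _ hp
    exact this
  obtain ⟨p₀, hp₀⟩ := hconn.nonempty
  have hle : a ≤ b := (hmem p₀ hp₀).1.trans (hmem p₀ hp₀).2
  obtain ⟨u, hu, hua⟩ : a ∈ Prod.fst '' C := hab ▸ left_mem_Icc.mpr hle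
  obtain ⟨v, hv, hvb⟩ : b ∈ Prod.fst '' C := hab ▸ right_mem_Icc.mpr hle
  have ha0 : 0 ≤ a := by
    rcases mem_T_iff.mp (hCT hu) with ⟨h1, _, _⟩ | ⟨h1, _, _⟩
    · exact hua ▸ h1.le
    · exact hua ▸ h1.ge
  have hgraph : ∀ p ∈ C, 0 < p.1 → p = (p.1, sin p.1⁻¹) := fun p hp h => by
    rcases mem_T_iff.mp (hCT hp) with ⟨_, _, h3⟩ | ⟨h1, _, _⟩
    · exact Prod.ext rfl h3
    · exact absurd h1 h.ne'
  rcases hle.eq_or_lt with heq | hlt
  · -- all first coordinates agree, so `C` lies in the bar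
    have hfst : ∀ p ∈ C, p.1 = a := fun p hp =>
      le_antisymm (heq ▸ (hmem p hp).2) (hmem p hp).1
    obtain ⟨c, d, hcd⟩ : ∃ c d, Prod.snd '' C = Icc c d :=
      ⟨_, _, eq_Icc_of_connected_compact (hconn.image _ continuous_snd.continuousOn)
        (hC.image continuous_snd)⟩
    have hmem2 : ∀ p ∈ C, c ≤ p.2 ∧ p.2 ≤ d := fun p hp => by
      have : p.2 ∈ Icc c d := hcd ▸ mem_image_of_mem _ hp
      exact this
    have hlt : c < d := by
      obtain ⟨p, hp, q, hq, hpq⟩ := hnt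
      by_contra hcon
      push Not at hcon
      apply hpq
      refine Prod.ext ((hfst p hp).trans (hfst q hq).symm) ?_
      linarith [hmem2 p hp, hmem2 q hq]
    have hin : ∀ t ∈ Icc c d, (a, t) ∈ C := fun t ht => by
      obtain ⟨p, hp, hpt⟩ : t ∈ Prod.snd '' C := hcd ▸ ht
      have : p = (a, t) := Prod.ext (hfst p hp) hpt
      exact this ▸ hp
    refine condCut_of_dense hlt (fun t => ⟨(a, t), hin t (Ioo_subset_Icc_self t.2)⟩) ?_
      (denseRange_of (fun t => (a, t)) (fun t ht => hin t (Ioo_subset_Icc_self ht)) ?_) ?_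
    · fun_prop
    · intro p hp
      have hc : Continuous (fun t : ℝ => (a, t)) := by fun_prop
      have : p = (a, p.2) := Prod.ext (hfst p hp) rfl
      rw [this]
      refine image_closure_subset_closure_image hc ⟨p.2, ?_, rfl⟩
      rw [closure_Ioo hlt.ne]
      exact hmem2 p hp
    · intro t
      refine cut_of_fun (fun q : C => q.1.2) (by fun_prop) _ ⟨(a, c), hin c (left_mem_Icc.mpr hlt.le)⟩
        ⟨(a, d), hin d (right_mem_Icc.mpr hlt.le)⟩ t.2.1 t.2.2 ?_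
      intro q hq
      exact Subtype.ext (Prod.ext (hfst q.1 q.2) hq)
  · have hin : ∀ t ∈ Ioo a b, (t, sin t⁻¹) ∈ C := fun t ht => by
      obtain ⟨p, hp, hpt⟩ : t ∈ Prod.fst '' C := hab ▸ Ioo_subset_Icc_self ht
      have := hgraph p hp (hpt ▸ ha0.trans_lt ht.1)
      rw [hpt] at this
      exact this ▸ hp
    refine condCut_of_dense hlt (fun t => ⟨(t, sin (t : ℝ)⁻¹), hin t t.2⟩) ?_
      (denseRange_of (fun t => (t, sin t⁻¹)) hin ?_) ?_
    · refine Continuous.subtype_mk ?_ _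
      rw [continuous_iff_continuousAt]
      intro t
      exact (contAt (ha0.trans_lt t.2.1)).comp continuous_subtype_val.continuousAt
    · intro p hp
      rcases mem_T_iff.mp (hCT hp) with ⟨h1, _, _⟩ | ⟨h1, h2, h3⟩
      · rw [hgraph p hp h1]
        refine mem_closure_image (contAt h1) ?_
        rw [closure_Ioo hlt.ne]
        exact hmem p hp
      · have ha : a = 0 := le_antisymm (h1 ▸ (hmem p hp).1) ha0
        have : p = (0, p.2) := Prod.ext h1 rfl
        rw [this, ha]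
        exact bar_mem_closure (ha ▸ hlt) ⟨h2, h3⟩
    · intro t
      refine cut_of_fun (fun q : C => q.1.1) (by fun_prop) _ ⟨u, hu⟩ ⟨v, hv⟩
        (by simpa [hua] using t.2.1) (by simpa [hvb] using t.2.2) ?_
      intro q hq
      have hq' : q.1.1 = t := hq
      refine Subtype.ext ?_
      rw [hgraph q.1 q.2 (hq' ▸ ha0.trans_lt t.2.1), hq']

/-- No path inside the sine curve joins the bar to the graph. -/
lemma no_path (f : unitInterval → ℝ × ℝ) (hf : Continuous f) (h0 : f 0 = (0, 0))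
    (h1 : f 1 = (1, sin 1⁻¹)) (hr : range f ⊆ S ∪ Z) : False := by
  have hx : Continuous fun t ↦ (f t).1 := continuous_fst.comp hf
  let t₀ : unitInterval := sSup {t | (f t).1 = 0}
  have ht₀ : (f t₀).1 = 0 :=
    (isClosed_singleton.preimage hx).sSup_mem ⟨0, by simp [h0]⟩
  obtain ⟨δ, hδ, ht⟩ : ∃ δ, 0 < δ ∧ ∀ t, dist t t₀ < δ → dist (f t) (f t₀) < 1 :=
    Metric.eventually_nhds_iff.mp <| Metric.tendsto_nhds.mp (hf.continuousAt (x := t₀)) _ one_pos
  have hlt1 : t₀ < 1 := by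
    refine lt_of_le_of_ne (unitInterval.le_one t₀) fun h => ?_
    rw [h, h1] at ht₀
    norm_num at ht₀
  obtain ⟨t₁, ht₁⟩ : ∃ t₁, t₀ < t₁ ∧ dist t₀ t₁ < δ := by
    have h_s : 0 ≤ (t₀ : ℝ) + δ / 2 := add_nonneg t₀.2.1 (by positivity)
    refine ⟨⟨min ((t₀ : ℝ) + δ / 2) 1, le_min h_s zero_le_one, min_le_right ..⟩,
      lt_min ((lt_add_iff_pos_right _).mpr (half_pos hδ)) hlt1, ?_⟩
    have h_le : min ((t₀ : ℝ) + δ / 2) 1 ≤ t₀ + δ / 2 := min_le_left _ _
    have h_ge : (t₀ : ℝ) ≤ min ((t₀ : ℝ) + δ / 2) 1 := le_min (by linarith) t₀.2.2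
    rw [Subtype.dist_eq, dist_comm, Real.dist_eq, abs_of_nonneg (by linarith)]
    linarith
  have ha : 0 < (f t₁).1 := by
    rcases mem_T_iff.mp (hr (mem_range_self t₁)) with ⟨h, _, _⟩ | ⟨h, _, _⟩
    · exact h
    · exact ((show t₁ ≤ t₀ from le_sSup h).not_gt ht₁.1).elim
  have hI : Icc 0 (f t₁).1 ⊆ (fun t ↦ (f t).1) '' Icc t₀ t₁ :=
    (isPreconnected_Icc.image _ <| hx.continuousOn).Icc_subset
      ⟨t₀, ⟨le_rfl, ht₁.1.le⟩, ht₀⟩ ⟨t₁, ⟨ht₁.1.le, le_rfl⟩, rfl⟩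
  have exists_close : ∀ y ∈ Icc (-1 : ℝ) 1, ∃ t, dist t t₀ < δ ∧ (f t).2 = y := by
    intro y hy
    obtain ⟨N, hN⟩ := ((xSeq_tendsto y).eventually (gt_mem_nhds ha)).exists
    obtain ⟨t, htI, htx⟩ := hI ⟨(xSeq_pos y N).le, hN.le⟩
    have htx' : (f t).1 = xSeq y N := htx
    refine ⟨t, ?_, ?_⟩
    · calc dist t t₀ ≤ dist t₁ t₀ := dist_right_le_of_mem_uIcc (Icc_subset_uIcc' htI)
        _ = dist t₀ t₁ := by rw [dist_comm]
        _ < δ := ht₁.2
    · rcases mem_T_iff.mp (hr (mem_range_self t)) with ⟨_, _, h⟩ | ⟨h, _, _⟩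
      · rw [h, htx', sin_inv_xSeq hy]
      · exact absurd (htx' ▸ h) (xSeq_pos y N).ne'
  obtain ⟨x₁, hx₁, hp₁⟩ := exists_close 1 (by simp)
  obtain ⟨x₂, hx₂, hp₂⟩ := exists_close (-1) (by simp)
  have h2 : dist (f x₁) (f x₂) < 2 := by
    refine (dist_triangle_right _ _ (f t₀)).trans_lt ?_
    exact (add_lt_add (ht _ hx₁) (ht _ hx₂)).trans_eq (by norm_num)
  have h3 : dist (f x₁).2 (f x₂).2 ≤ dist (f x₁) (f x₂) := by
    rw [Prod.dist_eq]
    exact le_max_right _ _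
  rw [hp₁, hp₂, Real.dist_eq, abs_of_nonneg (by norm_num)] at h3
  linarith

theorem result : ∃ X : Set (ℝ × ℝ), IsCompact X ∧ IsConnected X ∧
    (∀ C : Set (ℝ × ℝ), C ⊆ X → IsCompact C → IsConnected C → C.Nontrivial →
      CondS C ∧ CondCut C) ∧
    ∃ A : Set (ℝ × ℝ), A ⊆ X ∧ IsConnected A ∧ ∃ a ∈ A, ∃ b ∈ A, a ≠ b ∧
      ¬ ∃ f : unitInterval → ℝ × ℝ, IsEmbedding f ∧ f 0 = a ∧ f 1 = b ∧ range f ⊆ A := by
  refine ⟨S ∪ Z, isCompact_T, isConnected_T, ?_, S ∪ Z, subset_rfl, isConnected_T, (0, 0),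
    mem_T_iff.mpr (Or.inr (by simp)), (1, sin 1⁻¹), mem_T_iff.mpr (Or.inl (by simp)), by simp, ?_⟩
  · intro C hCT hC hconn hnt
    have h := condCut_sub hCT hC hconn hnt
    have : ConnectedSpace C := isConnected_iff_connectedSpace.mp hconn
    exact ⟨condS_of_condCut h, h⟩
  · rintro ⟨f, hf, h0, h1, hr⟩
    exact no_path f hf.continuous h0 h1 hr

end Pool.Agent.Results.MP_a3a891_gt.SineCurve
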